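import Pool.Agent.Helper65.UV.VSS

/-!
# UV R10: the mean of the prime sum, averaged over the window

`(X/2π) ∫_{-H}^{H} cos (w log n) dw = (X/π) sin (H log n)/log n`; at a prime `p` of the resonator `H log p = π ww p`, and
`cf X p · (X/π) sin(π w)/log p · v WP(p)/√p = 2 (1 - log p/X)² w (rp WP)/p`.
-/

set_option autoImplicit false
open MeasureTheory Set Filter Topology
open Pool.Agent.Helper57.Zeta Pool.Agent.Helper57.LH Pool.Agent.Helper57.ED Pool.Agent.Helper54.LG
open Pool.Agent.Helper69.UV (XX HH Adm PR ww sn rp rr RR VV WW wt WP NR WS)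
open Pool.Agent.Helper65.UG (cf SS_eq cf_bd)

namespace Pool.Agent.Helper65.UV

/-- Mean of `cos (w log n)` over the window of half length `H`. -/
noncomputable def sH (X H : ℝ) (n : ℕ) : ℝ :=
  X / (2 * Real.pi) * ∫ w in (-H)..H, Real.cos (w * Real.log n)

lemma sH_abs {X H : ℝ} (hX : 0 < X) (hH : 0 < H) (n : ℕ) : |sH X H n| ≤ X * H / Real.pi := by
  have hpi := Real.pi_pos
  have h1 : ‖∫ w in (-H)..H, Real.cos (w * Real.log n)‖ ≤ 1 * |H - -H| := by
    apply intervalIntegral.norm_integral_le_of_norm_le_const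
    intro w _
    rw [Real.norm_eq_abs]
    exact Real.abs_cos_le_one _
  rw [Real.norm_eq_abs, one_mul, abs_of_pos (a := H - -H) (by linarith)] at h1
  unfold sH
  rw [abs_mul, abs_of_pos (by positivity : 0 < X / (2 * Real.pi))]
  calc X / (2 * Real.pi) * |∫ w in (-H)..H, Real.cos (w * Real.log n)|
      ≤ X / (2 * Real.pi) * (H - -H) := mul_le_mul_of_nonneg_left h1 (by positivity)
    _ = X * H / Real.pi := by
        field_simp
        ring

lemma sH_eq {X H : ℝ} {n : ℕ} (hn : 0 < Real.log n) :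
    sH X H n = X / Real.pi * (Real.sin (H * Real.log n) / Real.log n) := by
  have hpi := Real.pi_pos
  unfold sH
  rw [intervalIntegral.integral_comp_mul_right (f := Real.cos) hn.ne', _root_.integral_cos, neg_mul, Real.sin_neg,
    smul_eq_mul]
  field_simp
  ring

lemma sin_window (a L : ℝ) : ∫ w in (-a)..a, Real.sin (w * L) = 0 := by
  have h := intervalIntegral.integral_comp_neg (a := -a) (b := a) (fun w => Real.sin (w * L))
  rw [neg_neg] at h
  have h2 : ∫ w in (-a)..a, Real.sin (-w * L) = -∫ w in (-a)..a, Real.sin (w * L) := by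
    rw [← intervalIntegral.integral_neg]
    congr 1
    ext w
    rw [neg_mul, Real.sin_neg]
  linarith

lemma WS_eq (δ T c t : ℝ) :
    WS δ T c t = ∑ n ∈ Finset.Icc 1 ⌊Real.exp (XX δ T c)⌋₊,
      cf (XX δ T c) n * sH (XX δ T c) (HH T c) n * Real.cos (t * Real.log n) := by
  unfold WS
  set X := XX δ T c
  set H := HH T c
  simp_rw [SS_eq]
  rw [intervalIntegral.integral_finsetSum, Finset.mul_sum]
  · refine Finset.sum_congr rfl fun n _ => ?_
    rw [intervalIntegral.integral_const_mul]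
    have h1 : ∫ w in (-H)..H, Real.cos ((t + w) * Real.log n) =
        Real.cos (t * Real.log n) * ∫ w in (-H)..H, Real.cos (w * Real.log n) := by
      have h2 : ∀ w : ℝ, Real.cos ((t + w) * Real.log n) =
          Real.cos (t * Real.log n) * Real.cos (w * Real.log n) -
            Real.sin (t * Real.log n) * Real.sin (w * Real.log n) := by
        intro w
        rw [add_mul, Real.cos_add]
      simp_rw [h2]
      rw [intervalIntegral.integral_sub, intervalIntegral.integral_const_mul, intervalIntegral.integral_const_mul,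
        sin_window, mul_zero, sub_zero]
      · exact (by fun_prop : Continuous fun w : ℝ => Real.cos (t * Real.log n) * Real.cos (w * Real.log n)).intervalIntegrable _ _
      · exact (by fun_prop : Continuous fun w : ℝ => Real.sin (t * Real.log n) * Real.sin (w * Real.log n)).intervalIntegrable _ _
    rw [h1]
    unfold sH
    ring
  · intro n _
    exact (by fun_prop : Continuous fun w : ℝ => cf X n * Real.cos ((t + w) * Real.log n)).intervalIntegrable _ _

/-- R3. -/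
def StR3 (δ : ℝ) : Prop := ∃ C c0 T0 : ℝ, 0 < C ∧ ∀ T, T0 ≤ T → ∀ c, Adm δ c0 T c →
    (∀ p ∈ PR δ T c, p.Prime ∧ Real.log T ^ 4 < p ∧ (p : ℝ) ≤ T ^ (δ / 1000) ∧ δ < ww T c p ∧ ww T c p ≤ 1 / δ) ∧
    1 / 2 ≤ ∑ p ∈ PR δ T c, (1 / p : ℝ) ∧ ∑ p ∈ PR δ T c, (1 / p : ℝ) ≤ C

/-- R3'. -/
def StR3' (δ : ℝ) : Prop := ∃ c0 T0 : ℝ, ∀ T, T0 ≤ T → ∀ c, Adm δ c0 T c →
    1 / 2 - 3 * δ ≤ ∑ p ∈ PR δ T c, sn T c p ^ 2 * ww T c p / p ∧
    ∑ p ∈ PR δ T c, sn T c p ^ 2 * ww T c p / p ≤ 1 / 2 + δ / 10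

/-- R4. -/
def StR4 (δ : ℝ) : Prop := ∃ c0 T0 : ℝ, ∀ T, T0 ≤ T → ∀ c, Adm δ c0 T c → ∀ v : ℝ,
    v ^ 2 = (1 - 4 * δ) * c → ∀ p ∈ PR δ T c,
    (1 - δ) * rp T c v p ^ 2 * VV δ T c v ≤ rp T c v p * WP δ T c v p ∧
    |WP δ T c v p| ≤ |rp T c v p| * VV δ T c v

/-- R9. -/
def StR9 (δ : ℝ) : Prop := ∃ c0 T0 : ℝ, ∀ T, T0 ≤ T → ∀ c, Adm δ c0 T c → ∀ v : ℝ,
    v ^ 2 = (1 - 4 * δ) * c → ∀ τ u : ℝ, ∀ n : ℕ, IsPrimePow n → (n : ℝ) ≤ Real.exp (XX δ T c) →
    |(∫ t, wt δ T c v τ t * Real.cos ((t + u) * Real.log n)) -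
      (if n ∈ PR δ T c then WP δ T c v n / √n * Real.cos (u * Real.log n) else 0)| ≤ 1 / T

lemma num1 {δ : ℝ} (hδ : 0 < δ) (hδ1 : δ ≤ 1 / 32) :
    1 - 19 * δ ≤ 2 * (1 - δ) ^ 3 * (1 - 4 * δ) * (1 / 2 - 3 * δ) := by
  have h20 : 1 - 3 * δ ≤ (1 - δ) ^ 3 := by nlinarith [mul_nonneg hδ.le hδ.le, sq_nonneg δ]
  have h21 : (1 - 3 * δ) * (1 - 4 * δ) ≤ (1 - δ) ^ 3 * (1 - 4 * δ) :=
    mul_le_mul_of_nonneg_right h20 (by linarith)
  have h22 : (1 - 3 * δ) * (1 - 4 * δ) * (1 - 6 * δ) ≤ (1 - δ) ^ 3 * (1 - 4 * δ) * (1 - 6 * δ) :=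
    mul_le_mul_of_nonneg_right h21 (by linarith)
  nlinarith [mul_nonneg hδ.le hδ.le, mul_nonneg (mul_nonneg hδ.le hδ.le) hδ.le]

lemma abs_v_le {δ v c : ℝ} (hδ : 0 < δ) (hδ1 : δ ≤ 1 / 32) (hc : 16 ≤ c) (hv : v ^ 2 = (1 - 4 * δ) * c) :
    |v| ≤ c := by
  have hv2 : 1 ≤ v ^ 2 := by
    rw [hv]
    nlinarith
  have hvc : v ^ 2 ≤ c := by
    rw [hv]
    nlinarith
  have h1 : |v| ≤ v ^ 2 := by
    rw [← sq_abs] at hv2 ⊢
    have : 1 ≤ |v| := by nlinarith [abs_nonneg v]
    nlinarith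
  linarith

lemma w_le {δ X w : ℝ} (hδ : 0 < δ) (hX : 0 < X) (hw : w ≤ 1 / δ) : δ ^ 2 * X * w ≤ δ * X := by
  have h1 : δ ^ 2 * X * w ≤ δ ^ 2 * X * (1 / δ) := mul_le_mul_of_nonneg_left hw (by positivity)
  have h2 : δ ^ 2 * X * (1 / δ) = δ * X := by field_simp
  linarith

lemma sq_step {s δ : ℝ} (hs : 0 < s) (h : 4 ≤ s * δ ^ 3) : s ≤ δ ^ 3 / 4 * (s * s) := by
  have h1 : s * 4 ≤ s * (s * δ ^ 3) := mul_le_mul_of_nonneg_left h hs.le
  have h2 : δ ^ 3 / 4 * (s * s) = s * (s * δ ^ 3) / 4 := by ring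
  rw [h2]
  linarith

theorem eWS_of {δ : ℝ} (hδ : 0 < δ) (hδ1 : δ ≤ 1 / 32) (hR2 : StR2 δ) (hR3 : StR3 δ) (hR3' : StR3' δ) (hR4 : StR4 δ)
    (hR9 : StR9 δ) :
    ∃ c0 T0 : ℝ, ∀ T, T0 ≤ T → ∀ c, Adm δ c0 T c → ∀ v : ℝ,
    v ^ 2 = (1 - 4 * δ) * c → ∀ τ : ℝ,
    (1 - 20 * δ) * c * VV δ T c v ≤ v * ∫ t, wt δ T c v τ t * WS δ T c t := by
  obtain ⟨c2, T2, hR2⟩ := hR2
  obtain ⟨C3, c3, T3, -, hR3⟩ := hR3
  obtain ⟨c3', T3', hR3'⟩ := hR3'
  obtain ⟨c4, T4, hR4⟩ := hR4
  obtain ⟨c9, T9, hR9⟩ := hR9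
  refine ⟨max (max (max c2 c3') c3) (max (max c4 c9) (16 / δ ^ 3)),
    max (max (max T2 T3') T3) (max (max T4 T9) (max (Real.exp (Real.exp 1)) ((4 / δ ^ 3) ^ 2))), ?_⟩
  intro T hT c hadm v hv τ
  simp only [max_le_iff] at hT
  obtain ⟨⟨⟨hT2, hT3'⟩, hT3⟩, ⟨hT4, hT9⟩, hTe, hTb⟩ := hT
  have hfac := adm_facts hδ hδ1 hTe (by simp) hadm
  unfold Adm at hadm
  obtain ⟨hc0, hadm⟩ := hadm
  simp only [max_le_iff] at hc0
  obtain ⟨⟨⟨hc2, hc3'⟩, hc3⟩, ⟨hc4, hc9⟩, hc16'⟩ := hc0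
  obtain ⟨hT1, hlog1, -, hc16, hX16, hXlog, hXe, hcX⟩ := hfac
  have hT0 : 0 < T := by linarith
  have hc0 : 0 < c := by linarith
  have hV := (hR2 T hT2 c ⟨hc2, hadm⟩ v hv 0).2
  obtain ⟨hP, -, -⟩ := hR3 T hT3 c ⟨hc3, hadm⟩
  have hP1 := (hR3' T hT3' c ⟨hc3', hadm⟩).1
  have h4 := hR4 T hT4 c ⟨hc4, hadm⟩ v hv
  have h9 := hR9 T hT9 c ⟨hc9, hadm⟩ v hv τ 0
  set X := XX δ T c with hXdef
  set H := HH T c with hHdef
  have hpi := Real.pi_pos
  have hX0 : 0 < X := by linarith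
  have hH0 : 0 < H := by
    rw [hHdef]
    unfold HH
    positivity
  have hlogT : Real.log T = δ ^ 2 * c * X := hcX.symm
  have hXH : X * H / Real.pi = 1 / δ ^ 2 := by
    rw [hHdef]
    unfold HH
    rw [hlogT]
    field_simp
  set N := ⌊Real.exp X⌋₊ with hN
  have hNle : (N : ℝ) ≤ T ^ (δ / 16) := (Nat.floor_le (Real.exp_pos X).le).trans hXe
  have hvabs : |v| ≤ c := abs_v_le hδ hδ1 hc16 hv
  set E : ℕ → ℝ := fun n => ∫ t, wt δ T c v τ t * Real.cos (t * Real.log n) with hE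
  -- the integral
  have hint : ∫ t, wt δ T c v τ t * WS δ T c t =
      ∑ n ∈ Finset.Icc 1 N, cf X n * sH X H n * E n := by
    simp_rw [WS_eq, Finset.mul_sum]
    rw [integral_finsetSum]
    · refine Finset.sum_congr rfl fun n _ => ?_
      rw [hE, ← integral_const_mul]
      congr 1
      ext t
      ring
    · intro n _
      have h := int_wt (δ := δ) (T := T) (c := c) (v := v) (τ := τ) hT0
        (f := fun t => cf X n * sH X H n * Real.cos (t * Real.log n)) (by fun_prop)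
        (C := |cf X n * sH X H n|) (fun t => by
          rw [abs_mul]
          exact mul_le_of_le_one_right (abs_nonneg _) (Real.abs_cos_le_one _))
      exact h
  rw [hint, Finset.mul_sum]
  -- pointwise
  have hpt : ∀ n ∈ Finset.Icc 1 N, cf X n * sH X H n * (if n ∈ PR δ T c then v * WP δ T c v n / √n else 0) -
      2 * (1 / δ ^ 2) * (c / T) ≤ v * (cf X n * sH X H n * E n) := by
    intro n hn
    obtain ⟨hcf0, -, hcf2, -⟩ := cf_bd hX0 hn
    by_cases hΛ : ArithmeticFunction.vonMangoldt n = 0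
    · have hz : cf X n = 0 := by
        unfold cf
        rw [hΛ]
        simp
      rw [hz]
      simp only [zero_mul, mul_zero, zero_sub]
      have : 0 ≤ 2 * (1 / δ ^ 2) * (c / T) := by positivity
      linarith
    · have hpp : IsPrimePow n := ArithmeticFunction.vonMangoldt_ne_zero_iff.1 hΛ
      have hle : (n : ℝ) ≤ Real.exp X := (Nat.le_floor_iff (Real.exp_pos X).le).1 (Finset.mem_Icc.1 hn).2
      have h10 := h9 n hpp hle
      simp only [add_zero, zero_mul, Real.cos_zero, mul_one] at h10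
      set I := (if n ∈ PR δ T c then WP δ T c v n / √n else 0) with hI
      have hI2 : (if n ∈ PR δ T c then v * WP δ T c v n / √n else 0) = v * I := by
        rw [hI]
        split_ifs
        · ring
        · simp
      rw [hI2]
      have h11 : |cf X n * sH X H n * (v * (E n - I))| ≤ 2 * (1 / δ ^ 2) * (c / T) := by
        rw [abs_mul, abs_mul, abs_mul, abs_of_nonneg hcf0]
        calc cf X n * |sH X H n| * (|v| * |E n - I|) ≤ 2 * (1 / δ ^ 2) * (c * (1 / T)) := by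
              apply mul_le_mul
              · exact mul_le_mul hcf2 ((sH_abs hX0 hH0 n).trans hXH.le) (abs_nonneg _) (by norm_num)
              · exact mul_le_mul hvabs h10 (abs_nonneg _) hc0.le
              · positivity
              · positivity
          _ = 2 * (1 / δ ^ 2) * (c / T) := by ring
      have h12 := neg_abs_le (cf X n * sH X H n * (v * (E n - I)))
      have h13 : v * (cf X n * sH X H n * E n) = cf X n * sH X H n * (v * I) + cf X n * sH X H n * (v * (E n - I)) := by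
        ring
      rw [h13]
      linarith
  have hsum := Finset.sum_le_sum hpt
  rw [Finset.sum_sub_distrib, Finset.sum_const, Nat.card_Icc, Nat.add_sub_cancel, nsmul_eq_mul] at hsum
  refine le_trans ?_ hsum
  -- main term
  have hmain : (1 - 19 * δ) * c * VV δ T c v ≤
      ∑ n ∈ Finset.Icc 1 N, cf X n * sH X H n * (if n ∈ PR δ T c then v * WP δ T c v n / √n else 0) := by
    have hlogp : ∀ p : ℕ, Real.log p = δ ^ 2 * X * ww T c p := by
      intro p
      unfold ww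
      rw [hlogT]
      field_simp
    have hlogX : ∀ p ∈ PR δ T c, Real.log p ≤ δ * X := by
      intro p hp
      obtain ⟨-, -, -, -, hw⟩ := hP p hp
      rw [hlogp p]
      exact w_le hδ hX0 hw
    have hsub : PR δ T c ⊆ Finset.Icc 1 N := by
      intro p hp
      have hpp := (hP p hp).1
      have hp0 : (0:ℝ) < p := by exact_mod_cast hpp.pos
      rw [Finset.mem_Icc]
      refine ⟨hpp.one_le, ?_⟩
      rw [hN, Nat.le_floor_iff (Real.exp_pos X).le, ← Real.log_le_iff_le_exp hp0]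
      have h1 := hlogX p hp
      have h2 : δ * X ≤ 1 * X := mul_le_mul_of_nonneg_right (by linarith) hX0.le
      linarith
    have h14 : ∑ n ∈ Finset.Icc 1 N, cf X n * sH X H n * (if n ∈ PR δ T c then v * WP δ T c v n / √n else 0) =
        ∑ p ∈ PR δ T c, cf X p * sH X H p * (v * WP δ T c v p / √p) := by
      symm
      rw [← Finset.sum_subset hsub]
      · refine Finset.sum_congr rfl fun p hp => ?_
        rw [if_pos hp]
      · intro n _ hn
        rw [if_neg hn, mul_zero]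
    rw [h14]
    have h15 : ∀ p ∈ PR δ T c, 2 * (1 - δ) ^ 3 * (1 - 4 * δ) * c * VV δ T c v * (sn T c p ^ 2 * ww T c p / p) ≤
        cf X p * sH X H p * (v * WP δ T c v p / √p) := by
      intro p hp
      obtain ⟨hpp, -, -, hw0, hw1⟩ := hP p hp
      have hp0 : (0:ℝ) < p := by exact_mod_cast hpp.pos
      have hw : 0 < ww T c p := hδ.trans hw0
      have hL0 : 0 < Real.log p := by
        rw [hlogp p]
        positivity
      have hs0 : 0 < √(p:ℝ) := Real.sqrt_pos.2 hp0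
      have hss : √(p:ℝ) * √(p:ℝ) = p := Real.mul_self_sqrt hp0.le
      have hHL : H * Real.log p = Real.pi * ww T c p := by
        rw [hHdef]
        unfold HH ww
        ring
      have hsin : Real.sin (Real.pi * ww T c p) = Real.pi * ww T c p * sn T c p := by
        unfold sn
        field_simp
      have e1 : cf X p * sH X H p * (v * WP δ T c v p / √p) =
          2 * (1 - Real.log p / X) ^ 2 * (ww T c p / p) * (rp T c v p * WP δ T c v p) := by
        rw [sH_eq hL0, hHL, hsin]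
        unfold cf rp
        rw [ArithmeticFunction.vonMangoldt_apply_prime hpp]
        rw [show (ww T c p / (p:ℝ)) = ww T c p / (√(p:ℝ) * √(p:ℝ)) by rw [hss]]
        field_simp
      rw [e1]
      have h16 := (h4 p hp).1
      have h17 : (1 - δ) ^ 2 ≤ (1 - Real.log p / X) ^ 2 := by
        have : Real.log p / X ≤ δ := by
          rw [div_le_iff₀ hX0]
          exact hlogX p hp
        apply pow_le_pow_left₀ (by linarith)
        linarith
      have hV0 : 0 ≤ VV δ T c v := by linarith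
      have h18 : 0 ≤ (1 - δ) * rp T c v p ^ 2 * VV δ T c v := by
        have : 0 ≤ 1 - δ := by linarith
        positivity
      have hrp : rp T c v p ^ 2 = (1 - 4 * δ) * c * sn T c p ^ 2 := by
        unfold rp
        rw [mul_pow, hv]
      calc 2 * (1 - δ) ^ 3 * (1 - 4 * δ) * c * VV δ T c v * (sn T c p ^ 2 * ww T c p / p)
          = 2 * (1 - δ) ^ 2 * (ww T c p / p) * ((1 - δ) * rp T c v p ^ 2 * VV δ T c v) := by
            rw [hrp]
            ring
        _ ≤ 2 * (1 - Real.log p / X) ^ 2 * (ww T c p / p) * (rp T c v p * WP δ T c v p) := by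
            apply mul_le_mul _ h16 h18 (by positivity)
            apply mul_le_mul_of_nonneg_right _ (by positivity)
            exact mul_le_mul_of_nonneg_left h17 (by norm_num)
    have hV0 : 0 ≤ VV δ T c v := by linarith
    have hnum := num1 hδ hδ1
    calc (1 - 19 * δ) * c * VV δ T c v = (1 - 19 * δ) * (c * VV δ T c v) := by ring
      _ ≤ 2 * (1 - δ) ^ 3 * (1 - 4 * δ) * (1 / 2 - 3 * δ) * (c * VV δ T c v) :=
          mul_le_mul_of_nonneg_right hnum (by positivity)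
      _ = 2 * (1 - δ) ^ 3 * (1 - 4 * δ) * c * VV δ T c v * (1 / 2 - 3 * δ) := by ring
      _ ≤ 2 * (1 - δ) ^ 3 * (1 - 4 * δ) * c * VV δ T c v * ∑ p ∈ PR δ T c, sn T c p ^ 2 * ww T c p / p := by
          apply mul_le_mul_of_nonneg_left hP1
          have h1 : 0 ≤ 1 - δ := by linarith
          have h2 : 0 ≤ 1 - 4 * δ := by linarith
          positivity
      _ = ∑ p ∈ PR δ T c, 2 * (1 - δ) ^ 3 * (1 - 4 * δ) * c * VV δ T c v * (sn T c p ^ 2 * ww T c p / p) := by
          rw [Finset.mul_sum]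
      _ ≤ _ := Finset.sum_le_sum h15
  have herr : (N : ℝ) * (2 * (1 / δ ^ 2) * (c / T)) ≤ δ * c * VV δ T c v := by
    have hsq : √T * √T = T := Real.mul_self_sqrt hT0.le
    have hsq2 : 4 / δ ^ 3 ≤ √T := Real.le_sqrt_of_sq_le hTb
    have hs0 : 0 < √T := Real.sqrt_pos.2 hT0
    have hN2 : (N : ℝ) ≤ √T := by
      rw [Real.sqrt_eq_rpow]
      exact hNle.trans (Real.rpow_le_rpow_of_exponent_le hT1 (by linarith))
    have h24 : (N : ℝ) / T ≤ δ ^ 3 / 4 := by
      rw [div_le_iff₀ hT0]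
      have h25 : 4 ≤ √T * δ ^ 3 := (div_le_iff₀ (by positivity)).1 hsq2
      calc (N : ℝ) ≤ √T := hN2
        _ ≤ δ ^ 3 / 4 * (√T * √T) := sq_step hs0 h25
        _ = δ ^ 3 / 4 * T := by rw [hsq]
    calc (N : ℝ) * (2 * (1 / δ ^ 2) * (c / T)) = (2 * (1 / δ ^ 2) * c) * ((N : ℝ) / T) := by ring
      _ ≤ (2 * (1 / δ ^ 2) * c) * (δ ^ 3 / 4) := mul_le_mul_of_nonneg_left h24 (by positivity)
      _ = δ * c / 2 := by
          field_simp
          ring
      _ ≤ δ * c * VV δ T c v := by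
          have h26 : 0 < δ * c := by positivity
          have h27 : δ * c * 1 ≤ δ * c * VV δ T c v := mul_le_mul_of_nonneg_left hV h26.le
          linarith
  have h25 : (1 - 20 * δ) * c * VV δ T c v = (1 - 19 * δ) * c * VV δ T c v - δ * c * VV δ T c v := by ring
  rw [h25]
  linarith

end Pool.Agent.Helper65.UV
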