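import Pool.Agent.Helper65.UG.VSS
import Pool.Agent.Helper69.UV.Defs

/-!
# UV R10, R11: the prime sum as a Dirichlet polynomial
-/

set_option autoImplicit false
open MeasureTheory Set Filter Topology
open Pool.Agent.Helper57.Zeta Pool.Agent.Helper57.LH Pool.Agent.Helper57.ED Pool.Agent.Helper54.LG
open Pool.Agent.Helper69.UV (XX HH Adm PR ww sn rp rr RR VV WW wt WP NR WS)
open Pool.Agent.Helper65.UG (ee ee_norm ee_cont ee_mul ee_add int_PW_bdd cf SS_eq cf_bd DD SS_le cpow_ee DD_cont DD_bdd SS_cont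
  SS_bdd mv diag)

namespace Pool.Agent.Helper65.UV

lemma RR_eq (δ T c v t : ℝ) : RR δ T c v t =
    ∑ m ∈ Finset.Icc 1 (NR δ T), ((rr δ T c v m / Real.sqrt m : ℝ) : ℂ) * ee m t := by
  unfold RR
  refine Finset.sum_congr rfl fun m hm => ?_
  rw [cpow_ee (Finset.mem_Icc.1 hm).1, ← mul_assoc]
  congr 1
  push_cast
  ring

lemma RR_cont (δ T c v : ℝ) : Continuous (RR δ T c v) := by
  have : RR δ T c v = fun t => ∑ m ∈ Finset.Icc 1 (NR δ T),
      ((rr δ T c v m / Real.sqrt m : ℝ) : ℂ) * ee m t := funext fun t => RR_eq δ T c v t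
  rw [this]
  exact continuous_finsetSum _ fun m _ => continuous_const.mul (ee_cont m)

lemma RR_bdd (δ T c v : ℝ) : ∃ B : ℝ, ∀ t, ‖RR δ T c v t‖ ≤ B := by
  refine ⟨∑ m ∈ Finset.Icc 1 (NR δ T), ‖((rr δ T c v m / Real.sqrt m : ℝ) : ℂ)‖, fun t => ?_⟩
  rw [RR_eq]
  refine (norm_sum_le _ _).trans (Finset.sum_le_sum fun m _ => ?_)
  rw [norm_mul, ee_norm, mul_one]

/-- Any bounded continuous function can be integrated against the weight. -/
lemma int_wt {δ T c v τ : ℝ} (hT : 0 < T) {f : ℝ → ℝ} (hf : Continuous f) {C : ℝ} (hC : ∀ t, |f t| ≤ C) :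
    Integrable fun t => wt δ T c v τ t * f t := by
  obtain ⟨B, hB⟩ := RR_bdd δ T c v
  have hW : 0 < WW δ T := Real.rpow_pos_of_pos hT _
  have h := int_PW_bdd hW τ (f := fun t => ‖RR δ T c v t‖ ^ 2 * f t) (by
    exact ((RR_cont δ T c v).norm.pow 2).mul hf) (C := B ^ 2 * C) (fun t => by
      rw [abs_mul, abs_of_nonneg (by positivity)]
      have h1 : ‖RR δ T c v t‖ ^ 2 ≤ B ^ 2 := pow_le_pow_left₀ (norm_nonneg _) (hB t) 2
      exact mul_le_mul h1 (hC t) (abs_nonneg _) ((sq_nonneg _).trans h1))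
  refine h.congr (Eventually.of_forall fun t => ?_)
  simp only [wt]
  ring

lemma wt_nonneg {δ T c v τ : ℝ} (hT : 0 < T) (t : ℝ) : 0 ≤ wt δ T c v τ t := by
  unfold wt
  have := PW_pos (W := WW δ T) (Real.rpow_pos_of_pos hT _) (t - τ)
  positivity

/-- Sizes. -/
lemma adm_facts {δ c0 T c : ℝ} (hδ : 0 < δ) (hδ1 : δ ≤ 1 / 32) (hT : Real.exp (Real.exp 1) ≤ T)
    (hc0 : 16 / δ ^ 3 ≤ c0) (h : Adm δ c0 T c) :
    1 ≤ T ∧ 1 ≤ Real.log T ∧ 16 / δ ^ 3 ≤ c ∧ 16 ≤ c ∧ 16 ≤ XX δ T c ∧ XX δ T c ≤ δ / 16 * Real.log T ∧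
      Real.exp (XX δ T c) ≤ T ^ (δ / 16) ∧ δ ^ 2 * c * XX δ T c = Real.log T := by
  obtain ⟨hc, h⟩ := h
  have hT0 : 0 < T := (Real.exp_pos _).trans_le hT
  have h1 : Real.exp 1 ≤ Real.log T := (Real.le_log_iff_exp_le hT0).2 hT
  have h2 : (1:ℝ) ≤ Real.exp 1 := by
    have := Real.add_one_le_exp (1:ℝ)
    linarith
  have h3 : 1 ≤ Real.log T := h2.trans h1
  have h4 : 1 ≤ Real.log (Real.log T) := (Real.le_log_iff_exp_le (by linarith)).2 h1
  have hc3 : 16 / δ ^ 3 ≤ c := hc0.trans hc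
  have hδ3 : 0 < δ ^ 3 := by positivity
  have hc3' : 16 ≤ c * δ ^ 3 := (div_le_iff₀ hδ3).1 hc3
  have hδ31 : δ ^ 3 ≤ 1 := pow_le_one₀ hδ.le (by linarith)
  have hc0' : 0 < c := by
    have : 0 < 16 / δ ^ 3 := by positivity
    linarith
  have hc16 : 16 ≤ c := by nlinarith
  have hdc : 0 < δ ^ 2 * c := by positivity
  have hδ2 : δ ^ 2 ≤ 1 := pow_le_one₀ hδ.le (by linarith)
  have h5 : 16 ≤ XX δ T c := by
    unfold XX
    rw [le_div_iff₀ hdc]
    nlinarith [mul_le_mul_of_nonneg_left h4 hc0'.le, mul_le_mul_of_nonneg_right hδ2 hc0'.le,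
      mul_le_mul_of_nonneg_right hδ2 (by linarith : 0 ≤ Real.log T)]
  have h6 : XX δ T c ≤ δ / 16 * Real.log T := by
    unfold XX
    rw [div_le_iff₀ hdc]
    have : δ / 16 * Real.log T * (δ ^ 2 * c) = (c * δ ^ 3) * Real.log T / 16 := by ring
    rw [this]
    nlinarith
  have h7 : 1 ≤ T := by
    have := Real.add_one_le_exp (Real.exp 1)
    linarith
  refine ⟨h7, h3, hc3, hc16, h5, h6, ?_, ?_⟩
  · rw [Real.rpow_def_of_pos hT0]
    apply Real.exp_le_exp.2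
    calc XX δ T c ≤ δ / 16 * Real.log T := h6
      _ = Real.log T * (δ / 16) := by ring
  · unfold XX
    field_simp

end Pool.Agent.Helper65.UV
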