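import Pool.Agent.Helper25.UG.Pk

/-!
# Mertens' theorem with a Lipschitz weight
-/

set_option autoImplicit false
open MeasureTheory Set Filter Topology
open Pool.Agent.Helper25.UG (prs mem_prs mert_real prs_split)

namespace Pool.Agent.Helper65.UV

/-- one block -/
lemma mert_block {C L a b K B : ℝ} (hC : 0 < C)
    (hM : ∀ y z : ℝ, 1 ≤ y → y ≤ z → |∑ p ∈ prs y z, Real.log p / p - Real.log (z / y)| ≤ C)
    (hL : 0 < L) (ha : 0 ≤ a) (hab : a ≤ b) {F : ℝ → ℝ} (hF : IntervalIntegrable F volume a b)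
    (hK : 0 ≤ K) (hlip : ∀ x ∈ Icc a b, ∀ y ∈ Icc a b, |F x - F y| ≤ K * |x - y|)
    (hB : ∀ x ∈ Icc a b, |F x| ≤ B) :
    |∑ p ∈ prs (Real.exp (L * a)) (Real.exp (L * b)), Real.log p / p * F (Real.log p / L) -
      L * ∫ x in a..b, F x| ≤ 2 * K * L * (b - a) ^ 2 + C * (K * (b - a) + B) := by
  have hB0 : 0 ≤ B := (abs_nonneg _).trans (hB a ⟨le_rfl, hab⟩)
  have hba : 0 ≤ b - a := by linarith
  have h1 := hM (Real.exp (L * a)) (Real.exp (L * b)) (Real.one_le_exp (by positivity))
    (Real.exp_le_exp.2 (mul_le_mul_of_nonneg_left hab hL.le))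
  rw [← Real.exp_sub, Real.log_exp, ← mul_sub] at h1
  set S := prs (Real.exp (L * a)) (Real.exp (L * b)) with hS
  have hmem : ∀ p ∈ S, 0 ≤ Real.log p / (p:ℝ) ∧ Real.log p / L ∈ Icc a b := by
    intro p hp
    rw [hS, mem_prs (Real.exp_pos _).le] at hp
    obtain ⟨h2, h3, h4⟩ := hp
    have hp0 : (0:ℝ) < p := by exact_mod_cast h4.pos
    have hp1 : (1:ℝ) ≤ p := by exact_mod_cast h4.one_le
    refine ⟨div_nonneg (Real.log_nonneg hp1) hp0.le, ?_, ?_⟩
    · rw [le_div_iff₀ hL, mul_comm]
      exact ((Real.lt_log_iff_exp_lt hp0).2 h2).le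
    · rw [div_le_iff₀ hL, mul_comm]
      exact (Real.log_le_iff_le_exp hp0).2 h3
  have hW0 : 0 ≤ ∑ p ∈ S, Real.log p / (p:ℝ) := Finset.sum_nonneg fun p hp => (hmem p hp).1
  have hWu : ∑ p ∈ S, Real.log p / (p:ℝ) ≤ L * (b - a) + C := by
    have := (abs_le.1 h1).2
    linarith
  -- replace F by its value at a
  have h2 : |∑ p ∈ S, Real.log p / p * F (Real.log p / L) -
      (∑ p ∈ S, Real.log p / (p:ℝ)) * F a| ≤ (L * (b - a) + C) * (K * (b - a)) := by
    rw [Finset.sum_mul, ← Finset.sum_sub_distrib]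
    refine (Finset.abs_sum_le_sum_abs _ _).trans ?_
    calc ∑ p ∈ S, |Real.log p / p * F (Real.log p / L) - Real.log p / p * F a|
        ≤ ∑ p ∈ S, Real.log p / (p:ℝ) * (K * (b - a)) := by
          refine Finset.sum_le_sum fun p hp => ?_
          obtain ⟨h3, h4⟩ := hmem p hp
          rw [← mul_sub, abs_mul, abs_of_nonneg h3]
          refine mul_le_mul_of_nonneg_left ?_ h3
          refine (hlip _ h4 a ⟨le_rfl, hab⟩).trans (mul_le_mul_of_nonneg_left ?_ hK)
          rw [abs_of_nonneg (by linarith [h4.1])]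
          linarith [h4.2]
      _ = (∑ p ∈ S, Real.log p / (p:ℝ)) * (K * (b - a)) := by rw [Finset.sum_mul]
      _ ≤ _ := mul_le_mul_of_nonneg_right hWu (by positivity)
  have h3 : |(∑ p ∈ S, Real.log p / (p:ℝ)) * F a - L * (b - a) * F a| ≤ C * B := by
    rw [← sub_mul, abs_mul]
    exact mul_le_mul h1 (hB a ⟨le_rfl, hab⟩) (abs_nonneg _) hC.le
  have h4 : |(b - a) * F a - ∫ x in a..b, F x| ≤ K * (b - a) ^ 2 := by
    have e : (b - a) * F a - ∫ x in a..b, F x = ∫ x in a..b, (F a - F x) := by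
      rw [intervalIntegral.integral_sub intervalIntegrable_const hF]
      simp
    rw [e]
    have h5 : ‖∫ x in a..b, (F a - F x)‖ ≤ K * (b - a) * |b - a| := by
      apply intervalIntegral.norm_integral_le_of_norm_le_const
      intro x hx
      rw [uIoc_of_le hab] at hx
      rw [Real.norm_eq_abs]
      refine (hlip a ⟨le_rfl, hab⟩ x ⟨hx.1.le, hx.2⟩).trans (mul_le_mul_of_nonneg_left ?_ hK)
      rw [abs_sub_comm, abs_of_nonneg (by linarith [hx.1])]
      linarith [hx.2]
    rw [abs_of_nonneg hba, Real.norm_eq_abs] at h5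
    calc _ ≤ K * (b - a) * (b - a) := h5
      _ = _ := by ring
  have h5 : |L * (b - a) * F a - L * ∫ x in a..b, F x| ≤ L * (K * (b - a) ^ 2) := by
    rw [mul_assoc, ← mul_sub, abs_mul, abs_of_pos hL]
    exact mul_le_mul_of_nonneg_left h4 hL.le
  have h6 := abs_sub_le (∑ p ∈ S, Real.log p / p * F (Real.log p / L))
    ((∑ p ∈ S, Real.log p / (p:ℝ)) * F a) (L * ∫ x in a..b, F x)
  have h7 := abs_sub_le ((∑ p ∈ S, Real.log p / (p:ℝ)) * F a) (L * (b - a) * F a)
    (L * ∫ x in a..b, F x)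
  calc _ ≤ (L * (b - a) + C) * (K * (b - a)) + (C * B + L * (K * (b - a) ^ 2)) := by linarith
    _ = _ := by ring

/-- Mertens' first theorem with a Lipschitz weight: `n` blocks -/
theorem mert_weight : ∃ C : ℝ, 0 < C ∧ ∀ (L a b K B : ℝ) (n : ℕ) (F : ℝ → ℝ), 0 < L → 0 ≤ a →
    a ≤ b → 1 ≤ n → ContinuousOn F (Icc a b) → 0 ≤ K →
    (∀ x ∈ Icc a b, ∀ y ∈ Icc a b, |F x - F y| ≤ K * |x - y|) → (∀ x ∈ Icc a b, |F x| ≤ B) →
    |∑ p ∈ prs (Real.exp (L * a)) (Real.exp (L * b)), Real.log p / p * F (Real.log p / L) -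
      L * ∫ x in a..b, F x| ≤ 2 * K * L * (b - a) ^ 2 / n + C * (K * (b - a) + B * n) := by
  obtain ⟨C, hC, hM⟩ := mert_real
  refine ⟨C, hC, ?_⟩
  intro L a b K B n F hL ha hab hn hcont hK hlip hB
  have hn0 : (0:ℝ) < n := by exact_mod_cast hn
  set η := (b - a) / n with hη
  have hη0 : 0 ≤ η := div_nonneg (by linarith) hn0.le
  have hηn : a + n * η = b := by
    rw [hη]
    field_simp
    ring
  have key : ∀ m : ℕ, m ≤ n →
      |∑ p ∈ prs (Real.exp (L * a)) (Real.exp (L * (a + m * η))),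
        Real.log p / p * F (Real.log p / L) - L * ∫ x in a..(a + m * η), F x| ≤
      m * (2 * K * L * η ^ 2 + C * (K * η + B)) := by
    intro m
    induction m with
    | zero =>
      intro _
      have e : prs (Real.exp (L * a)) (Real.exp (L * (a + (0:ℕ) * η))) = ∅ := by
        ext p
        simp only [Finset.notMem_empty, iff_false]
        rw [mem_prs (Real.exp_pos _).le]
        rintro ⟨h1, h2, -⟩
        simp only [Nat.cast_zero, zero_mul, add_zero] at h2
        linarith
      rw [e]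
      simp
    | succ m ih =>
      intro hm
      have ih' := ih (by omega)
      have hmn : ((m:ℝ) + 1) ≤ n := by exact_mod_cast hm
      have hm0 : (0:ℝ) ≤ m := Nat.cast_nonneg m
      have hx1 : a ≤ a + m * η := by nlinarith
      have hx2 : a + m * η ≤ a + (m + 1) * η := by nlinarith
      have hx3 : a + (m + 1) * η ≤ b := by nlinarith
      have hsub : Icc (a + m * η) (a + (m + 1) * η) ⊆ Icc a b := Icc_subset_Icc hx1 hx3
      have hint : ∀ u v : ℝ, a ≤ u → u ≤ v → v ≤ b → IntervalIntegrable F volume u v := by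
        intro u v h1 h2 h3
        apply ContinuousOn.intervalIntegrable
        rw [uIcc_of_le h2]
        exact hcont.mono (Icc_subset_Icc h1 h3)
      have hb := mert_block hC hM hL (ha.trans hx1) hx2 (hint _ _ hx1 hx2 hx3) hK
        (fun x hx y hy => hlip x (hsub hx) y (hsub hy)) (fun x hx => hB x (hsub hx))
      have e1 : a + (m + 1) * η - (a + m * η) = η := by ring
      rw [e1] at hb
      have e2 := prs_split (x := Real.exp (L * a)) (y := Real.exp (L * (a + m * η)))
        (z := Real.exp (L * (a + (m + 1) * η)))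
        (Real.exp_le_exp.2 (mul_le_mul_of_nonneg_left hx1 hL.le))
        (Real.exp_le_exp.2 (mul_le_mul_of_nonneg_left hx2 hL.le))
        (fun p => Real.log p / p * F (Real.log p / L))
      have e3 := intervalIntegral.integral_add_adjacent_intervals
        (hint a (a + m * η) le_rfl hx1 (hx2.trans hx3)) (hint _ _ hx1 hx2 hx3)
      push_cast
      rw [e2, ← e3]
      have h6 := abs_add_le
        (∑ p ∈ prs (Real.exp (L * a)) (Real.exp (L * (a + m * η))),
          Real.log p / p * F (Real.log p / L) - L * ∫ x in a..(a + m * η), F x)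
        (∑ p ∈ prs (Real.exp (L * (a + m * η))) (Real.exp (L * (a + (m + 1) * η))),
          Real.log p / p * F (Real.log p / L) - L * ∫ x in (a + m * η)..(a + (m + 1) * η), F x)
      calc _ = |(∑ p ∈ prs (Real.exp (L * a)) (Real.exp (L * (a + m * η))),
            Real.log p / p * F (Real.log p / L) - L * ∫ x in a..(a + m * η), F x) +
            (∑ p ∈ prs (Real.exp (L * (a + m * η))) (Real.exp (L * (a + (m + 1) * η))),
            Real.log p / p * F (Real.log p / L) -
              L * ∫ x in (a + m * η)..(a + (m + 1) * η), F x)| := by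
            congr 1
            ring
        _ ≤ _ := h6.trans (add_le_add ih' hb)
        _ = _ := by ring
  have hfin := key n le_rfl
  rw [hηn] at hfin
  refine hfin.trans (le_of_eq ?_)
  rw [hη]
  field_simp

end Pool.Agent.Helper65.UV
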