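import Pool.Agent.Helper65.UV.EWS
import Pool.Agent.Helper36.UV.Fin
import Pool.Agent.Helper60.UV.R

/-!
# UV R10, R11
-/

set_option autoImplicit false
open MeasureTheory Set Filter Topology
open Pool.Agent.Helper57.Zeta Pool.Agent.Helper57.LH Pool.Agent.Helper57.ED Pool.Agent.Helper54.LG
open Pool.Agent.Helper69.UV (XX HH Adm PR ww sn rp rr RR VV WW wt WP NR WS)

namespace Pool.Agent.Helper65.UV

/-- R10: the mean of the prime sum, averaged over the window. -/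
theorem eWS {δ : ℝ} (hδ : 0 < δ) (hδ1 : δ ≤ 1 / 32) : ∃ c0 T0 : ℝ, ∀ T, T0 ≤ T → ∀ c, Adm δ c0 T c → ∀ v : ℝ,
    v ^ 2 = (1 - 4 * δ) * c → ∀ τ : ℝ,
    (1 - 20 * δ) * c * VV δ T c v ≤ v * ∫ t, wt δ T c v τ t * WS δ T c t :=
  eWS_of hδ hδ1 (Pool.Agent.Helper60.UV.rr_bd hδ hδ1) (Pool.Agent.Helper7.UV.PR_facts hδ hδ1)
    (Pool.Agent.Helper7.UV.PR_mass hδ hδ1) (Pool.Agent.Helper36.UV.WP_bd hδ hδ1) (Pool.Agent.Helper60.UV.ecos hδ hδ1)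

/-- R11: its second moment (`e = 1, 2`). -/
theorem vSS {δ : ℝ} (hδ : 0 < δ) (hδ1 : δ ≤ 1 / 32) : ∃ C c0 T0 : ℝ, 0 < C ∧ ∀ T, T0 ≤ T → ∀ c, Adm δ c0 T c → ∀ v : ℝ,
    v ^ 2 = (1 - 4 * δ) * c → ∀ τ u e : ℝ,
    e = 1 ∨ e = 2 → ∫ t, wt δ T c v τ t * SS (XX δ T c / e) (t + u) ^ 2 ≤ C * c * VV δ T c v :=
  vSS_of hδ hδ1 (Pool.Agent.Helper60.UV.rr_bd hδ hδ1)

end Pool.Agent.Helper65.UV
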